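import Mathlib
import Pool.Agent.X215.Circ.Key

/-!
There is a subgroup of the circle which is not `I*`-characterized for any ideal `I`.
-/

namespace Pool.Agent.Results.MP_8013b9_lc.NotStarCharacterized

open Filter Topology Set Cardinal

/-- `I` is a proper ideal on `ℕ` containing all finite sets. -/
def IsIdeal (I : Set (Set ℕ)) : Prop :=
  (∀ S : Set ℕ, S.Finite → S ∈ I) ∧ (∀ S ∈ I, ∀ S' ⊆ S, S' ∈ I) ∧
    (∀ S ∈ I, ∀ S' ∈ I, S ∪ S' ∈ I) ∧ (univ : Set ℕ) ∉ I

/-- The set of all `x` in the circle such that `a n • x` tends to `0` along the complement of some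
member of `I`. -/
def HStar (a : ℕ → ℤ) (I : Set (Set ℕ)) : Set UnitAddCircle :=
  {x | ∃ S ∈ I, Tendsto (fun n => a n • x) (atTop ⊓ 𝓟 Sᶜ) (𝓝 0)}

/-- The divisible hull of the subgroup generated by a set. -/
def Hull (S : Set UnitAddCircle) : Set UnitAddCircle :=
  {y | ∃ k : ℤ, k ≠ 0 ∧ k • y ∈ AddSubgroup.closure S}

theorem mem_Hull_of_mem_closure {S : Set UnitAddCircle} {y : UnitAddCircle}
    (h : y ∈ AddSubgroup.closure S) : y ∈ Hull S := ⟨1, one_ne_zero, by rwa [one_zsmul]⟩

theorem countable_div (k : ℤ) (hk : k ≠ 0) (w : UnitAddCircle) :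
    {y : UnitAddCircle | k • y = w}.Countable := by
  obtain ⟨w', rfl⟩ := QuotientAddGroup.mk_surjective w
  refine (countable_range fun m : ℤ => (((w' + m) / k : ℝ) : UnitAddCircle)).mono ?_
  intro y hy
  obtain ⟨r, rfl⟩ := QuotientAddGroup.mk_surjective y
  have h1 : ((k • r - w' : ℝ) : UnitAddCircle) = 0 := by
    have h2 : k • ((r : ℝ) : UnitAddCircle) = ((w' : ℝ) : UnitAddCircle) := hy
    rw [AddCircle.coe_sub, AddCircle.coe_zsmul, h2, sub_self]
  rw [AddCircle.coe_eq_zero_iff] at h1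
  obtain ⟨m, hm⟩ := h1
  refine ⟨m, ?_⟩
  show (((w' + m) / k : ℝ) : UnitAddCircle) = ((r : ℝ) : UnitAddCircle)
  congr 1
  have hk' : (k : ℝ) ≠ 0 := by exact_mod_cast hk
  rw [div_eq_iff hk']
  simp only [zsmul_eq_mul, mul_one] at hm
  linarith

theorem mk_closure_le (S : Set UnitAddCircle) :
    #(AddSubgroup.closure S : Set UnitAddCircle) ≤ max #S ℵ₀ := by
  rcases S.eq_empty_or_nonempty with rfl | hS
  · rw [AddSubgroup.closure_empty]
    refine le_trans ?_ (le_max_right _ _)
    have : ((⊥ : AddSubgroup UnitAddCircle) : Set UnitAddCircle) = {0} := rfl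
    rw [this]
    exact (mk_singleton _).le.trans one_le_aleph0
  · haveI : Nonempty S := hS.to_subtype
    have h1 : (AddSubgroup.closure S : Set UnitAddCircle) ⊆
        range fun f : S →₀ ℤ => f.sum fun s c => c • (s : UnitAddCircle) := by
      intro y hy
      have h3 : y ∈ (Submodule.span ℤ S).toAddSubgroup := by
        rw [Submodule.span_int_eq_addSubgroupClosure]
        exact hy
      have h2 : y ∈ Submodule.span ℤ S := h3
      rw [← Subtype.range_coe (s := S), Finsupp.mem_span_range_iff_exists_finsupp] at h2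
      obtain ⟨c, hc⟩ := h2
      exact ⟨c, hc⟩
    calc #(AddSubgroup.closure S : Set UnitAddCircle)
        ≤ #(range fun f : S →₀ ℤ => f.sum fun s c => c • (s : UnitAddCircle)) :=
          mk_le_mk_of_subset h1
      _ ≤ #(S →₀ ℤ) := mk_range_le
      _ = max #S ℵ₀ := by rw [mk_finsupp_of_infinite', mk_int]

theorem mk_Hull_lt {S : Set UnitAddCircle} (h : #S < 𝔠) : #(Hull S) < 𝔠 := by
  let P : Type := ↥(AddSubgroup.closure S : Set UnitAddCircle) × {k : ℤ // k ≠ 0}
  have h1 : Hull S ⊆ ⋃ p : P, {y : UnitAddCircle | p.2.1 • y = p.1.1} := by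
    rintro y ⟨k, hk, hy⟩
    exact mem_iUnion.2 ⟨(⟨k • y, hy⟩, ⟨k, hk⟩), rfl⟩
  refine lt_of_le_of_lt (mk_le_mk_of_subset h1) ?_
  have h2 : ∀ p : P, #{y : UnitAddCircle | p.2.1 • y = p.1.1} ≤ ℵ₀ := fun p =>
    (countable_div p.2.1 p.2.2 p.1).le_aleph0
  refine lt_of_le_of_lt (mk_iUnion_le _) ?_
  have h3 : #P < 𝔠 := by
    show #(↥(AddSubgroup.closure S : Set UnitAddCircle) × {k : ℤ // k ≠ 0}) < 𝔠
    rw [mk_prod, lift_id, lift_id]
    refine mul_lt_of_lt aleph0_le_continuum ?_ ?_
    · exact lt_of_le_of_lt (mk_closure_le S) (max_lt h aleph0_lt_continuum)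
    · exact lt_of_le_of_lt mk_le_aleph0 aleph0_lt_continuum
  refine mul_lt_of_lt aleph0_le_continuum h3 ?_
  refine lt_of_le_of_lt ?_ aleph0_lt_continuum
  exact ciSup_le' h2

theorem exists_not_mem {f : Set ℕ → UnitAddCircle} (hf : Function.Injective f)
    {D : Set UnitAddCircle} (hD : #D < 𝔠) : ∃ E, f E ∉ D := by
  by_contra hcon
  push Not at hcon
  have h1 : #(Set ℕ) ≤ #D :=
    mk_le_of_injective (f := fun E => (⟨f E, hcon E⟩ : D)) fun E E' h => hf (congrArg Subtype.val h)
  rw [mk_set, mk_nat, two_power_aleph0] at h1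
  exact absurd hD (not_lt.2 h1)

/-- The index set. -/
abbrev Om : Type := (𝔠 : Cardinal.{0}).ord.ToType

theorem mk_Om : #Om = 𝔠 := by rw [mk_ord_toType]

theorem mk_Iio_lt (i : Om) : #(Iio i) < 𝔠 := mk_Iio_toType_ord_lt i

/-- The set of the points used before stage `i`. -/
def Used (x : UnitAddCircle) (i : Om) (p : ∀ j : Om, j < i → UnitAddCircle × UnitAddCircle) :
    Set UnitAddCircle :=
  {y | y = x ∨ ∃ j hj, y = (p j hj).1 ∨ y = (p j hj).2}

theorem mk_Used_lt (x : UnitAddCircle) (i : Om)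
    (p : ∀ j : Om, j < i → UnitAddCircle × UnitAddCircle) : #(Used x i p) < 𝔠 := by
  have h1 : Used x i p ⊆ ({x} ∪ range fun j : Iio i => (p j.1 j.2).1) ∪
      range fun j : Iio i => (p j.1 j.2).2 := by
    rintro y (rfl | ⟨j, hj, rfl | rfl⟩)
    · exact Or.inl (Or.inl rfl)
    · exact Or.inl (Or.inr ⟨⟨j, hj⟩, rfl⟩)
    · exact Or.inr ⟨⟨j, hj⟩, rfl⟩
  refine lt_of_le_of_lt (mk_le_mk_of_subset h1) ?_
  have h2 : ∀ f : Iio i → UnitAddCircle, #(range f) < 𝔠 := fun f =>
    lt_of_le_of_lt mk_range_le (mk_Iio_lt i)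
  refine lt_of_le_of_lt (mk_union_le _ _) (add_lt_of_lt aleph0_le_continuum ?_ (h2 _))
  refine lt_of_le_of_lt (mk_union_le _ _) (add_lt_of_lt aleph0_le_continuum ?_ (h2 _))
  rw [mk_singleton]
  exact one_lt_aleph0.trans aleph0_lt_continuum

/-- **There is a subgroup of the circle which is not `I*`-characterized for any ideal `I`.** -/
theorem result : ∃ H : AddSubgroup UnitAddCircle, ∀ (a : ℕ → ℤ) (I : Set (Set ℕ)),
    IsIdeal I → (H : Set UnitAddCircle) ≠ HStar a I := by
  classical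
  -- an element of infinite order
  obtain ⟨x, hx⟩ : ∃ x : UnitAddCircle, ∀ k : ℕ, 0 < k → k • x ≠ 0 := by
    refine ⟨((√2 : ℝ) : UnitAddCircle), fun k hk h => ?_⟩
    rw [← AddCircle.coe_nsmul, AddCircle.coe_eq_zero_iff] at h
    obtain ⟨m, hm⟩ := h
    have h1 := irrational_sqrt_two.natCast_mul (m := k) (by omega)
    refine h1 ⟨(m : ℚ), ?_⟩
    simp only [zsmul_eq_mul, mul_one, nsmul_eq_mul] at hm
    push_cast
    exact hm
  -- the tasks
  let Act : Type := {q : (ℕ → ℤ) × Set ℕ //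
    Tendsto (fun n => q.1 n • x) (atTop ⊓ 𝓟 q.2) (𝓝 0)}
  have hAct : #Act ≤ #Om := by
    rw [mk_Om]
    refine (mk_subtype_le _).trans ?_
    rw [mk_prod, lift_id, lift_id, mk_set, mk_nat, two_power_aleph0]
    have : #(ℕ → ℤ) = 𝔠 := by
      rw [← power_def, mk_nat, mk_int, aleph0_power_aleph0]
    rw [this, continuum_mul_self]
  have : Nonempty Act := ⟨⟨(fun _ => 0, univ), by
    simp only [zero_smul]
    exact tendsto_const_nhds⟩⟩
  obtain ⟨e, he⟩ : ∃ e : Om → Act, Function.Surjective e := by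
    obtain ⟨g⟩ := hAct
    exact ⟨Function.invFun g, Function.invFun_surjective g.injective⟩
  -- one step
  have hstep : ∀ (i : Om) (p : ∀ j : Om, j < i → UnitAddCircle × UnitAddCircle),
      ∃ r : UnitAddCircle × UnitAddCircle, r.1 ∉ Hull (Used x i p) ∧
        r.2 ∉ Hull (insert r.1 (Used x i p)) ∧ ∀ B' ⊆ (e i).1.2,
          Tendsto (fun n => (e i).1.1 n • r.1) (atTop ⊓ 𝓟 B') (𝓝 0) →
          Tendsto (fun n => (e i).1.1 n • r.2) (atTop ⊓ 𝓟 B') (𝓝 0) := by
    intro i p
    obtain ⟨z, hz, hz'⟩ := Pool.Agent.X215.Circ.key x hx (e i).1.1 (e i).1.2 (e i).2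
    have hcod : Function.Injective fun E : Set ℕ => {n | Even n} ∪ (fun n => 2 * n + 1) '' E := by
      intro E E' h
      ext n
      have h1 : 2 * n + 1 ∈ {n | Even n} ∪ (fun n => 2 * n + 1) '' E ↔
          2 * n + 1 ∈ {n | Even n} ∪ (fun n => 2 * n + 1) '' E' := by
        simp only at h
        rw [h]
      have h2 : ∀ F : Set ℕ, 2 * n + 1 ∈ {n | Even n} ∪ (fun n => 2 * n + 1) '' F ↔ n ∈ F := by
        intro F
        constructor
        · rintro (h | ⟨m, hm, hm'⟩)
          · obtain ⟨c, hc⟩ := h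
            omega
          · simp only at hm'
            have : m = n := by omega
            rwa [← this]
        · exact fun h => Or.inr ⟨n, h, rfl⟩
      rw [h2, h2] at h1
      exact h1
    obtain ⟨E, hE⟩ := exists_not_mem (f := fun E : Set ℕ =>
      z ({n | Even n} ∪ (fun n => 2 * n + 1) '' E)) (hz.comp hcod) (mk_Hull_lt (mk_Used_lt x i p))
    set C : Set ℕ := {n | Even n} ∪ (fun n => 2 * n + 1) '' E with hC
    have hcod' : Function.Injective fun E : Set ℕ => (fun n => 2 * n) '' E :=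
      Set.image_injective.2 fun m n h => by
        have h' : 2 * m = 2 * n := h
        omega
    have hins : #(insert (z C) (Used x i p) : Set UnitAddCircle) < 𝔠 := by
      refine lt_of_le_of_lt (mk_insert_le) (add_lt_of_lt aleph0_le_continuum (mk_Used_lt x i p) ?_)
      exact one_lt_aleph0.trans aleph0_lt_continuum
    obtain ⟨E', hE'⟩ := exists_not_mem (f := fun E : Set ℕ => z ((fun n => 2 * n) '' E))
      (hz.comp hcod') (mk_Hull_lt hins)
    refine ⟨(z C, z ((fun n => 2 * n) '' E')), hE, hE', fun B' hB' h => ?_⟩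
    refine hz' _ C ?_ B' hB' h
    rintro _ ⟨n, -, rfl⟩
    exact Or.inl ⟨n, by simp only; omega⟩
  choose st hst1 hst2 hst3 using hstep
  -- the recursion
  let w : Om → UnitAddCircle × UnitAddCircle := (wellFounded_lt (α := Om)).fix st
  have hw : ∀ i, w i = st i fun j _ => w j := fun i => WellFounded.fix_eq _ _ _
  let U : Om → Set UnitAddCircle := fun i => Used x i fun j _ => w j
  have h1 : ∀ i, (w i).1 ∉ Hull (U i) := fun i => by
    rw [hw i]; exact hst1 i _
  have h2 : ∀ i, (w i).2 ∉ Hull (insert (w i).1 (U i)) := fun i => by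
    rw [hw i]; exact hst2 i _
  have h3 : ∀ i, ∀ B' ⊆ (e i).1.2,
      Tendsto (fun n => (e i).1.1 n • (w i).1) (atTop ⊓ 𝓟 B') (𝓝 0) →
      Tendsto (fun n => (e i).1.1 n • (w i).2) (atTop ⊓ 𝓟 B') (𝓝 0) := fun i => by
    rw [hw i]; exact hst3 i _
  -- the subgroup
  let G : Option Om → UnitAddCircle := fun o => o.elim x fun i => (w i).1
  refine ⟨AddSubgroup.closure (range G), fun a I hI hH => ?_⟩
  have hGmem : ∀ o, G o ∈ AddSubgroup.closure (range G) := fun o =>
    AddSubgroup.subset_closure ⟨o, rfl⟩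
  obtain ⟨S, hS, hSx⟩ : x ∈ HStar a I := by
    rw [← hH]; exact hGmem none
  obtain ⟨i, hi⟩ := he ⟨(a, Sᶜ), hSx⟩
  obtain ⟨S', hS', hS'u⟩ : (w i).1 ∈ HStar a I := by
    rw [← hH]; exact hGmem (some i)
  have hv : (w i).2 ∈ AddSubgroup.closure (range G) := by
    have : (w i).2 ∈ HStar a I := by
      refine ⟨S ∪ S', hI.2.2.1 S hS S' hS', ?_⟩
      have h4 := h3 i (S ∪ S')ᶜ
      rw [hi] at h4
      refine h4 (compl_subset_compl.2 subset_union_left) ?_
      exact hS'u.mono_left (inf_le_inf_left _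
        (principal_mono.2 (compl_subset_compl.2 subset_union_right)))
    rw [← hH] at this
    exact this
  -- the contradiction
  have hspan : (w i).2 ∈ Submodule.span ℤ (range G) := by
    have h5 : (w i).2 ∈ (Submodule.span ℤ (range G)).toAddSubgroup := by
      rw [Submodule.span_int_eq_addSubgroupClosure]
      exact hv
    exact h5
  rw [Finsupp.mem_span_range_iff_exists_finsupp] at hspan
  obtain ⟨c, hc⟩ := hspan
  have hUsub : ∀ j k : Om, j < k → (w j).1 ∈ U k ∧ (w j).2 ∈ U k := fun j k h =>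
    ⟨Or.inr ⟨j, h, Or.inl rfl⟩, Or.inr ⟨j, h, Or.inr rfl⟩⟩
  have hxU : ∀ k, x ∈ U k := fun k => Or.inl rfl
  -- the largest index beyond `i` in the support
  let F : Finset Om := c.support.eraseNone.filter fun k => i < k
  rcases F.eq_empty_or_nonempty with hF | hF
  · refine h2 i (mem_Hull_of_mem_closure ?_)
    rw [← hc]
    refine AddSubgroup.sum_mem _ fun o ho => AddSubgroup.zsmul_mem _ ?_ _
    refine AddSubgroup.subset_closure ?_
    cases o with
    | none => exact mem_insert_of_mem _ (hxU i)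
    | some k =>
      have hk : ¬ i < k := fun h => by
        have : k ∈ F := Finset.mem_filter.2 ⟨Finset.mem_eraseNone.2 ho, h⟩
        rw [hF] at this
        exact absurd this (Finset.notMem_empty _)
      rcases (not_lt.1 hk).lt_or_eq with h | h
      · exact mem_insert_of_mem _ (hUsub k i h).1
      · rw [h]; exact mem_insert _ _
  · set k := F.max' hF with hk
    have hkF := F.max'_mem hF
    rw [← hk] at hkF
    obtain ⟨hk1, hk2⟩ := Finset.mem_filter.1 hkF
    rw [Finset.mem_eraseNone] at hk1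
    refine h1 k ⟨c (some k), Finsupp.mem_support_iff.1 hk1, ?_⟩
    have h6 : c.sum (fun o n => n • G o) =
        c (some k) • (w k).1 + ∑ o ∈ c.support.erase (some k), c o • G o := by
      rw [Finsupp.sum, ← Finset.add_sum_erase _ _ hk1]
      rfl
    have h7 : c (some k) • (w k).1 = (w i).2 - ∑ o ∈ c.support.erase (some k), c o • G o := by
      rw [← hc, h6, add_sub_cancel_right]
    rw [h7]
    refine AddSubgroup.sub_mem _ (AddSubgroup.subset_closure (hUsub i k hk2).2) ?_
    refine AddSubgroup.sum_mem _ fun o ho => AddSubgroup.zsmul_mem _ ?_ _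
    refine AddSubgroup.subset_closure ?_
    rw [Finset.mem_erase] at ho
    cases o with
    | none => exact hxU k
    | some l =>
      have hlk : l ≠ k := fun h => ho.1 (by rw [h])
      have hl : l < k := by
        by_cases hil : i < l
        · have : l ∈ F := Finset.mem_filter.2 ⟨Finset.mem_eraseNone.2 ho.2, hil⟩
          exact lt_of_le_of_ne (F.le_max' l this) hlk
        · exact lt_of_le_of_lt (not_lt.1 hil) hk2
      exact (hUsub l k hl).1

end Pool.Agent.Results.MP_8013b9_lc.NotStarCharacterized
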